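import Pool.Agent.Helper46.NU.Names

set_option autoImplicit false

open MeasureTheory Filter Topology Set

noncomputable section

namespace NU.PkCC

open Pool.Agent.Helper97.Ku

section

variable {A B D : Type}

/-- the A-part of a coordinate -/
def pA (a0 : A) : Co A B D → A
  | Co.x a => a
  | Co.c a _ => a
  | _ => a0

/-- the B-part of a coordinate -/
def pB (b0 : B) : Co A B D → B
  | Co.y b => b
  | Co.c _ b => b
  | _ => b0

/-- the D-part of a coordinate -/
def pD (d0 : D) : Co A B D → D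
  | Co.d i => i
  | _ => d0

end

theorem cc (ex1 : G_EX1) (ex2 : G_EX2) (fam : G_FAM) (rea : G_REA) (nu0 : G_NU0) (in2 : G_IN2)
    (avo : G_AVO) (cap : G_CAP) : G_CC := by
  intro W A B D _ _ _ hS L _ e he
  obtain ⟨a0⟩ := hS.neA
  obtain ⟨b0⟩ := hS.neB
  have := hS.unc
  have hW : Nonempty W := inferInstance
  obtain ⟨w0⟩ := hW
  obtain ⟨j, _⟩ := hS.inj
  set d0 : D := j w0 with hd0
  set x : A × B → BSet L := fun p =>
    NsN e (fun z : Pt (Sy A B D) => z (Co.c p.1 p.2 : Co A B D)) with hx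
  have hmeas : ∀ c : Co A B D, Measurable (fun z : Pt (Sy A B D) => z c) := fun c =>
    measurable_pi_apply (δ := Co A B D) (X := fun _ => ℕ → Bool) c
  have hnull : ∀ c : Co A B D, nullV (omN : BSet L) (NsN e (fun z : Pt (Sy A B D) => z c)) = ⊤ :=
    fun c => nu0 (Sy A B D) L e he _ (hmeas c)
  rw [eq_top_iff]
  refine le_trans ?_ (le_iSup _ (famN x))
  refine le_inf ?_ (le_inf ?_ ?_)
  · -- the family consists of null sets
    rw [top_le_iff]
    unfold famV
    rw [(fam L _ x).2.1 (fun M => nullV omN M) ((ex2 L).2.2 omN).2.1]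
    exact iInf_eq_top.2 fun p => hnull _
  · -- it covers the reals
    unfold crV
    refine le_iInf fun y => ?_
    rw [top_le_iff, himp_eq_top_iff]
    rw [(fam L _ x).2.2 (fun M => y.mem M) (BSet.Ext.mem_right y)]
    obtain ⟨w, hw, hyw⟩ := (rea (Sy A B D) L e he).2.2.1 y
    obtain ⟨Γ, hΓ, hcap⟩ := cap (Sy A B D) L e he w hw
    have : Nonempty (Sy A B D).C := ⟨(Co.c a0 b0 : Co A B D)⟩
    obtain ⟨g, hg⟩ := Set.countable_iff_exists_subset_range.1 hΓ
    obtain ⟨a, ha⟩ := hS.bdA (fun q => pA (B := B) (D := D) a0 (g q.2))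
    obtain ⟨b, hb⟩ := hS.bdW (fun q => pB (A := A) (D := D) b0 (g q.2))
    have hsee : ∀ c ∈ Γ, (Sy A B D).see (Co.c a b : Co A B D) c := by
      intro c hc
      obtain ⟨n, hn⟩ := hg hc
      have h1 : pA (B := B) (D := D) a0 c < a := hn ▸ ha (w0, n)
      have h2 : pB (A := A) (D := D) b0 c < b := hn ▸ hb (w0, n)
      show Co.see (Co.c a b : Co A B D) c
      clear hn hc
      cases c with
      | x a' => exact h1
      | y b' => exact h2
      | d i => exact trivial
      | c a' b' => exact ⟨h1, h2⟩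
    have hq := hcap (Co.c a b : Co A B D) trivial hsee
    refine hyw.trans (le_trans ?_ (le_iSup _ (a, b)))
    refine le_trans ?_ (BSet.mem_congr_left (rnN e w) y _)
    refine le_inf ?_ ?_
    · rw [BSet.eq_comm']
    · have : (rnN e w).mem (x (a, b)) = ⊤ := hq
      rw [this]
      exact le_top
  · -- every cofinal family is larger
    refine le_iInf fun d => ?_
    rw [le_himp_iff, top_inf_eq, le_himp_iff, le_compl_iff_disjoint_right, disjoint_iff]
    set H : L := ⨅ U : BSet L, (nullV omN U ⇨ ⨆ M : BSet L, (M.mem d ⊓ subV U M)) with hH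
    set b : L := famV omN d ⊓ H ⊓ injV (fun M => M.mem d) (fun M => M.mem (famN x)) with hb
    obtain ⟨M, c', hc', hcov⟩ := in2 L (A × B) x d b inf_le_right
    have hM : ∀ p, ∃ Γ : Set (Sy A B D).C, Γ.Countable ∧
        (∀ ξ, ξ ∉ Γ → (Sy A B D).gen ξ → (∀ c, ¬ (Sy A B D).see ξ c) →
          nullV omN (M p) ⊓ subV (NsN e fun z => z ξ) (M p) = ⊥) := by
      intro p
      obtain ⟨Γ, h1, h2, _⟩ := avo (Sy A B D) L e he (M p)
      exact ⟨Γ, h1, h2⟩
    choose Γ hΓ hav using hM
    have : Nonempty (Sy A B D).C := ⟨(Co.c a0 b0 : Co A B D)⟩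
    have hg : ∀ p, ∃ g : ℕ → (Sy A B D).C, Γ p ⊆ Set.range g := fun p =>
      Set.countable_iff_exists_subset_range.1 (hΓ p)
    choose g hg using hg
    obtain ⟨i, hi⟩ := hS.bdD (fun q => pD (A := A) (B := B) d0 (g q.1 q.2))
    have hnot : ∀ p, (Co.d i : Co A B D) ∉ Γ p := by
      intro p hp
      obtain ⟨n, hn⟩ := hg p hp
      exact hi (p, n) (by rw [hn]; rfl)
    have hU := hnull (Co.d i)
    set U : BSet L := NsN e (fun z : Pt (Sy A B D) => z (Co.d i : Co A B D)) with hUdef
    have hz : ∀ p, nullV omN (M p) ⊓ subV U (M p) = ⊥ := by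
      intro p
      refine hav p (Co.d i : Co A B D) (hnot p) trivial ?_
      intro c hc
      cases c <;> exact hc
    have hcn : ∀ p, c' p ≤ nullV omN (M p) := by
      intro p
      refine (hc' p).trans ?_
      have h1 : b ≤ (M p).mem d ⇨ nullV omN (M p) :=
        (inf_le_left.trans inf_le_left).trans (iInf_le _ (M p))
      exact le_himp_iff.1 h1
    have h1 : b ≤ ⨆ M' : BSet L, (M'.mem d ⊓ subV U M') := by
      have h2 : b ≤ nullV omN U ⇨ ⨆ M' : BSet L, (M'.mem d ⊓ subV U M') :=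
        (inf_le_left.trans inf_le_right).trans (iInf_le _ U)
      rwa [hU, top_himp] at h2
    rw [eq_bot_iff]
    calc b ≤ b ⊓ ⨆ M' : BSet L, (M'.mem d ⊓ subV U M') := le_inf le_rfl h1
      _ = ⨆ M' : BSet L, (b ⊓ (M'.mem d ⊓ subV U M')) := inf_iSup_eq _ _
      _ ≤ ⊥ := by
        refine iSup_le fun M' => ?_
        rw [← inf_assoc]
        refine (inf_le_inf_right _ (hcov M')).trans ?_
        rw [iSup_inf_eq]
        refine iSup_le fun p => ?_
        rw [← hz p]
        refine le_inf ((inf_le_left.trans inf_le_left).trans (hcn p)) ?_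
        refine le_trans ?_ (((ex1 L).1 U).2 M' (M p))
        exact inf_le_inf_right _ inf_le_right

end NU.PkCC
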