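import Pool.Agent.Helper46.NU.Goals1

set_option autoImplicit false

open MeasureTheory Filter Topology Set
open scoped ENNReal

noncomputable section

namespace NU.PkGM

/-- the `n`-th piece -/
def Cc (F : Set (Finset ℕ)) (n : ℕ) : Set (ℕ → Bool) :=
  {x | ∃ t ∈ F, LastN t n ∧ ∀ m < n, (x m = true ↔ m ∈ t)}

lemma openOf_eq (F : Set (Finset ℕ)) : OpenOf F = ⋃ n, Cc F n := by
  ext x
  simp only [OpenOf, Cc, Cyl, mem_setOf_eq, mem_iUnion]
  constructor
  · rintro ⟨t, ht, n, hn, h⟩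
    exact ⟨n, t, ht, hn, h⟩
  · rintro ⟨n, t, ht, hn, h⟩
    exact ⟨t, ht, n, hn, h⟩

lemma mono (k : ℕ) (F : Set (Finset ℕ)) (hF : Good k F) : Monotone (Cc F) := by
  apply monotone_nat_of_le_succ
  intro n x hx
  obtain ⟨t, ht, hn, h⟩ := hx
  have hmem : ∀ m, m ∈ insert (n + 1) ((Finset.range (n + 1)).filter fun m => x m = true) ↔
      m = n + 1 ∨ (m < n + 1 ∧ x m = true) := by
    intro m
    rw [Finset.mem_insert, Finset.mem_filter, Finset.mem_range]
  have hlast : LastN (insert (n + 1) ((Finset.range (n + 1)).filter fun m => x m = true))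
      (n + 1) := by
    refine ⟨Finset.mem_insert_self _ _, ?_⟩
    intro m hm
    rw [hmem] at hm
    omega
  refine ⟨_, hF.mono t _ n ht hn hlast ?_, hlast, ?_⟩
  · intro m hm
    rw [hmem, ← h m hm]
    constructor
    · intro hx
      exact Or.inr ⟨by omega, hx⟩
    · rintro (h1 | h1)
      · omega
      · exact h1.2
  · intro m hm
    rw [hmem]
    constructor
    · intro hx
      exact Or.inr ⟨hm, hx⟩
    · rintro (h1 | h1)
      · omega
      · exact h1.2

lemma bern_single (b : Bool) : bern {b} = 1 / 2 := by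
  cases b <;> simp [bern]

lemma cyl_meas (t : Finset ℕ) (n : ℕ) :
    coin {x | ∀ m < n, (x m = true ↔ m ∈ t)} = (1 / 2) ^ n := by
  have h : {x : ℕ → Bool | ∀ m < n, (x m = true ↔ m ∈ t)} =
      (↑(Finset.range n) : Set ℕ).pi (fun m => {decide (m ∈ t)}) := by
    ext x
    simp only [mem_setOf_eq, Set.mem_pi, Finset.coe_range, mem_Iio, mem_singleton_iff]
    refine forall_congr' fun m => forall_congr' fun _ => ?_
    by_cases hm : m ∈ t <;> simp [hm]
  rw [h, coin, Measure.infinitePi_pi _ (fun i _ => measurableSet_singleton _)]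
  rw [Finset.prod_congr rfl (fun i _ => bern_single _), Finset.prod_const, Finset.card_range]

lemma fin (F : Set (Finset ℕ)) (n : ℕ) : {t ∈ F | LastN t n}.Finite := by
  apply Set.Finite.subset (Finset.finite_toSet ((Finset.range (n + 1)).powerset))
  intro t ht
  rw [Finset.mem_coe, Finset.mem_powerset]
  intro m hm
  rw [Finset.mem_range]
  have := ht.2.2 m hm
  omega

lemma bound (k : ℕ) (F : Set (Finset ℕ)) (hF : Good k F) (n : ℕ) :
    coin (Cc F n) ≤ (1 / 2) ^ k := by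
  have h1 : Cc F n ⊆ ⋃ t ∈ (fin F n).toFinset, {x | ∀ m < n, (x m = true ↔ m ∈ t)} := by
    rintro x ⟨t, ht, hn, h⟩
    rw [mem_iUnion₂]
    exact ⟨t, (fin F n).mem_toFinset.2 ⟨ht, hn⟩, h⟩
  refine (measure_mono h1).trans ((measure_biUnion_finset_le _ _).trans ?_)
  rw [Finset.sum_congr rfl (fun t _ => cyl_meas t n), Finset.sum_const, nsmul_eq_mul]
  have hc := hF.card n
  rw [Set.ncard_eq_toFinset_card _ (fin F n)] at hc
  have hc' : (((fin F n).toFinset.card : ℕ) : ℝ≥0∞) * 2 ^ k ≤ 2 ^ n := by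
    exact_mod_cast hc
  have h2 : (1 / 2 : ℝ≥0∞) ^ k * 2 ^ k = 1 := by
    rw [← mul_pow, one_div, ENNReal.inv_mul_cancel (by norm_num) (by norm_num), one_pow]
  have h3 : (1 / 2 : ℝ≥0∞) ^ n * 2 ^ n = 1 := by
    rw [← mul_pow, one_div, ENNReal.inv_mul_cancel (by norm_num) (by norm_num), one_pow]
  calc (((fin F n).toFinset.card : ℕ) : ℝ≥0∞) * (1 / 2) ^ n
      = (((fin F n).toFinset.card : ℕ) : ℝ≥0∞) * (1 / 2) ^ n * ((1 / 2 : ℝ≥0∞) ^ k * 2 ^ k) := by
        rw [h2, mul_one]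
    _ = ((((fin F n).toFinset.card : ℕ) : ℝ≥0∞) * 2 ^ k) * ((1 / 2) ^ n * (1 / 2 : ℝ≥0∞) ^ k) := by
        ring
    _ ≤ 2 ^ n * ((1 / 2) ^ n * (1 / 2 : ℝ≥0∞) ^ k) := by gcongr
    _ = ((1 / 2 : ℝ≥0∞) ^ n * 2 ^ n) * (1 / 2) ^ k := by ring
    _ = (1 / 2) ^ k := by rw [h3, one_mul]

theorem gm : G_GM := by
  intro k F hF
  rw [openOf_eq, (mono k F hF).measure_iUnion]
  exact iSup_le (bound k F hF)

end NU.PkGM
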